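import Pool.Agent.R916.HdR.Fin

/-!
# The local Hodge–de Rham homology spectral sequence need not degenerate at `E_2`

Let `k` be a field of characteristic zero, `R = k[[x_0, …, x_5]]`, `q = x_0 x_1 + x_2 x_3 + x_4 x_5`
and `A = R/I` with `I = (q x_0, q x_2) = (q) ∩ (x_0, x_2)`; thus `Y = V(I)` is the union of a
quadric cone of dimension `5` and a linear space of dimension `4`. The differential
`d_2 : E_2^{3,2} → E_2^{5,1}` of the local Hodge–de Rham homology spectral sequence of `R → A` is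
not zero: it sends the class of `(x_5 / q) dx_0/x_0 ∧ dx_2/x_2 ∧ dx_4` in
`H^3_dR(H^2_I(R))` to the class in `H^5_dR(H^1_I(R))` of the form
`(-2/q^3) (x_1 dx_0 dx_2 dx_3 dx_4 dx_5 + x_3 dx_0 dx_1 dx_2 dx_4 dx_5 + x_5 dx_0 dx_1 dx_2 dx_3 dx_4)`,
which is not zero.

The definitions are in `Pool/Agent/R916/HdR/Defs.lean`.
-/

set_option autoImplicit false

universe u

open MvPowerSeries Pool.Agent.R916.HdR

/-- For every field `k` of characteristic zero, the local Hodge–de Rham homology spectral sequence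
of `R = k[[x_0, …, x_5]] → R/(q x_0, q x_2)`, `q = x_0 x_1 + x_2 x_3 + x_4 x_5`, does not
degenerate at `E_2`. -/
theorem Pool.Agent.Results.MP_196708_ag.NoDegeneration.result
    (k : Type u) [Field k] [CharZero k] (q : MvPowerSeries (Fin 6) k)
    (hq : q = X 0 * X 1 + X 2 * X 3 + X 4 * X 5) :
    q * X 0 ≠ 0 ∧ q * X 2 ≠ 0 ∧ ¬ DegeneratesAtE2 ![q * X 0, q * X 2] := by
  subst hq
  have hX : ∀ i : Fin 6, (X i : MvPowerSeries (Fin 6) k) ≠ 0 := fun i h =>
    xx_ne (k := k) i (by rw [xx, h, map_zero])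
  refine ⟨mul_ne_zero qq_ne (hX 0), mul_ne_zero qq_ne (hX 2), fun h => ?_⟩
  exact not_vanishes (k := k) (h 2 3 5 le_rfl)
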